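import Pool.Graph.R_pool_sql_team_seeded_efc1946e.K1H88.GT.Stm2

/-!
Crew KF (MP_0575cc_nt): the Good-Churchhouse law for `μ(n) e(a n̄ / p)`, almost all `a` modulo `p`, and for
`μ(n) e(α φ(n))`, `φ(n) = β P(a_n) + O(1)`, almost every real `α`. Statements of the parts.
-/

set_option autoImplicit false

namespace Pool.Agent.H27.KF

open Finset MeasureTheory Pool.Agent.K1H88.GT

/-- the function `μ(n) e(a n̄ / p)` -/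
noncomputable def kl (p : ℕ) [NeZero p] (a : ZMod p) (n : ℕ) : ℂ :=
  ((ArithmeticFunction.moebius n : ℤ) : ℂ) * ZMod.stdAddChar (a * (n : ZMod p)⁻¹)

/-- the quadruples with `1/(m-h) - 1/m = 1/(m'-h') - 1/m'` modulo `p` -/
def solK (p A B j : ℕ) : Finset ((ℕ × ℕ) × (ℕ × ℕ)) :=
  (quad A B j).filter (fun q => ((q.1.1 - q.1.2 : ℕ) : ZMod p)⁻¹ - ((q.1.1 : ℕ) : ZMod p)⁻¹ =
    ((q.2.1 - q.2.2 : ℕ) : ZMod p)⁻¹ - ((q.2.1 : ℕ) : ZMod p)⁻¹)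

/-- Part MOM: second moment over `a`. -/
def S_MOM : Prop := ∀ (p : ℕ) [Fact p.Prime] (U1 U2 j : ℕ),
  ∑ a : ZMod p, ‖ZZ (kl p a) U1 U2 j‖ ^ 2 ≤ (p : ℝ) * ((solK p (U1 + j) (U2 + j) j).card : ℝ)

/-- Part CNT: the number of the quadruples. -/
def S_CNT : Prop := ∀ η : ℝ, 0 < η → ∃ C : ℝ, 0 ≤ C ∧ ∀ p A B j : ℕ, p.Prime → 1 ≤ j → j ≤ A → B < p →
  ((solK p A B j).card : ℝ) ≤ C * (B : ℝ) ^ (1 + η) * j * (1 + (j : ℝ) * (B : ℝ) ^ 2 / p)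

/-- Part REP: representations of a nonzero integer as a difference of two values of `P` at natural numbers. -/
def S_REP : Prop := ∀ P : Polynomial ℤ, 2 ≤ P.natDegree → ∀ η : ℝ, 0 < η → ∃ C : ℝ, 0 ≤ C ∧
  ∀ (Y : ℕ) (d : ℤ), 1 ≤ Y → d ≠ 0 →
    ((((range (Y + 1)) ×ˢ (range (Y + 1))).filter (fun q : ℕ × ℕ =>
      P.eval (q.1 : ℤ) - P.eval (q.2 : ℤ) = d)).card : ℝ) ≤ C * (Y : ℝ) ^ η

/-- Part FIN: only finitely many pairs of different natural numbers with the same value. -/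
def S_FIN : Prop := ∀ P : Polynomial ℤ, 1 ≤ P.natDegree →
  {q : ℕ × ℕ | q.1 ≠ q.2 ∧ P.eval (q.1 : ℤ) = P.eval (q.2 : ℤ)}.Finite

/-- Part FEW: few solutions for `φ(n) = β P(a_n) + O(1)`. -/
def S_FEW : Prop := ∀ P : Polynomial ℤ, 2 ≤ P.natDegree → ∀ (b : ℕ → ℕ) (K : ℕ), Function.Injective b →
  (∀ n, b n ≤ K * (n + 1) ^ K) → ∀ (β C : ℝ), β ≠ 0 → ∀ φ : ℕ → ℤ,
  (∀ n, |(φ n : ℝ) - β * ((P.eval (b n : ℤ) : ℤ) : ℝ)| ≤ C) → Few φ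

end Pool.Agent.H27.KF
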