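import Pool.Graph.R_pool_sql_team_seeded_efc1946e.K1H88.GT.Main
import Pool.Agent.H27.KF.Stm

/-!
Crew KF (MP_0575cc_nt): sequences whose differences with a fixed step are pairwise different (for instance strictly convex
ones), windows up to `X ^ (1/2 - ε)`. The proofs are those of `Pool.Agent.K1H88.GT.BC` of the library with other exponents.
-/

set_option autoImplicit false

namespace Pool.Agent.H27.KF.Cvx

open Finset MeasureTheory Pool.Agent.K1H88.GT Filter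
open Pool.Agent.K1H88.GT.BC (fa_cont fa_norm fa_period)

/-- for every `h ≥ 1` the differences `φ(m + h) - φ(m)` are pairwise different -/
def Dist (φ : ℕ → ℤ) : Prop := ∀ h m n : ℕ, 1 ≤ h → φ (m + h) - φ m = φ (n + h) - φ n → m = n

lemma dist_few {φ : ℕ → ℤ} (hφ : Dist φ) : ∀ η : ℝ, 0 < η → ∃ C : ℝ, 0 ≤ C ∧ ∀ A B j : ℕ, 1 ≤ j → j ≤ A → A ≤ B →
    ((solP φ A B j).card : ℝ) ≤ C * (B : ℝ) ^ (1 + η) * j ^ 2 := by
  intro η hη
  refine ⟨1, zero_le_one, fun A B j hj hjA hAB => ?_⟩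
  have h1 : (solP φ A B j).card ≤ ((Ioc A B ×ˢ Icc 1 j) ×ˢ Icc 1 j).card := by
    apply Finset.card_le_card_of_injOn (fun p => ((p.1.1, p.1.2), p.2.2))
    · intro p hp
      simp only [solP, quad, coe_filter, Set.mem_ofPred_eq, mem_product, mem_Ioc, mem_Icc] at hp
      simp only [coe_product, Set.mem_prod, mem_coe, mem_Ioc, mem_Icc]
      exact ⟨hp.1.1, hp.1.2.2⟩
    · intro p hp q hq hpq
      simp only [solP, quad, coe_filter, Set.mem_ofPred_eq, mem_product, mem_Ioc, mem_Icc] at hp hq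
      simp only [Prod.mk.injEq] at hpq
      obtain ⟨⟨e1, e2⟩, e3⟩ := hpq
      have h2 : φ p.2.1 - φ (p.2.1 - p.2.2) = φ q.2.1 - φ (q.2.1 - q.2.2) := by
        rw [← hp.2, ← hq.2, e1, e2]
      have h3 := hφ p.2.2 (p.2.1 - p.2.2) (q.2.1 - q.2.2) hp.1.2.2.1 (by
        rw [Nat.sub_add_cancel (by omega), show q.2.1 - q.2.2 + p.2.2 = q.2.1 by omega]
        exact h2)
      have h4 : p.2.1 = q.2.1 := by omega
      exact Prod.ext (Prod.ext e1 e2) (Prod.ext h4 e3)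
  rw [card_product, card_product, Nat.card_Ioc, Nat.card_Icc] at h1
  have h5 : (solP φ A B j).card ≤ B * j ^ 2 := by
    refine h1.trans ?_
    have : (B - A) * (j + 1 - 1) * (j + 1 - 1) = (B - A) * j ^ 2 := by rw [Nat.add_sub_cancel]; ring
    rw [this]
    exact Nat.mul_le_mul_right _ (Nat.sub_le _ _)
  have hB : (1 : ℝ) ≤ B := by exact_mod_cast (by omega : 1 ≤ B)
  calc ((solP φ A B j).card : ℝ) ≤ B * j ^ 2 := by exact_mod_cast h5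
    _ = (B : ℝ) ^ (1 : ℝ) * j ^ 2 := by rw [Real.rpow_one]
    _ ≤ 1 * (B : ℝ) ^ (1 + η) * j ^ 2 := by
        rw [one_mul]
        gcongr
        linarith

/-- the conclusion for one `α` -/
def Good (φ : ℕ → ℤ) (ε δ α : ℝ) : Prop := ∃ X0 : ℝ, 1 ≤ X0 ∧ ∀ X H : ℝ, X0 ≤ X → 1 ≤ H → H ^ 2 ≤ X ^ (1 - ε) →
  |VV (fa φ α) X H - 6 / Real.pi ^ 2 * H| ≤ H * X ^ (-δ)

lemma good_period {φ : ℕ → ℤ} {ε δ α : ℝ} {k : ℤ} (h : Good φ ε δ (α + k)) : Good φ ε δ α := by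
  obtain ⟨X0, h1, h2⟩ := h
  refine ⟨X0, h1, fun X H h3 h4 h5 => ?_⟩
  have := h2 X H h3 h4 h5
  rwa [fa_period] at this

lemma ae_of_unit {φ : ℕ → ℤ} {ε δ : ℝ} (h : ∀ᵐ α ∂(volume.restrict (Set.Ioc (0 : ℝ) 1)), Good φ ε δ α) :
    ∀ᵐ α : ℝ, Good φ ε δ α := by
  rw [ae_restrict_iff' measurableSet_Ioc] at h
  have h2 : ∀ k : ℤ, ∀ᵐ α : ℝ, (α + k ∈ Set.Ioc (0 : ℝ) 1 → Good φ ε δ (α + k)) := by
    intro k
    exact (measurePreserving_add_right volume (k : ℝ)).quasiMeasurePreserving.ae h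
  rw [← ae_all_iff] at h2
  filter_upwards [h2] with α hα
  refine good_period (hα (-⌈α⌉ + 1) ?_)
  constructor
  · have := Int.ceil_lt_add_one α
    push_cast
    linarith
  · have := Int.le_ceil α
    push_cast
    linarith

/-- the number of summands -/
noncomputable def JP (ε : ℝ) (k : ℕ) : ℕ := ⌊√((2 * ((2 ^ k : ℕ) : ℝ)) ^ (1 - ε))⌋₊

/-- the exceptional set of one dyadic block -/
def EP (φ : ℕ → ℤ) (ε δ C : ℝ) (k : ℕ) : Set ℝ :=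
  {α | ∃ X H : ℝ, ((2 ^ k : ℕ) : ℝ) ≤ X ∧ X ≤ 2 * ((2 ^ k : ℕ) : ℝ) ∧ 1 ≤ H ∧ H ≤ X ∧ ⌊H⌋₊ ≤ JP ε k ∧
        C * H * X ^ (-δ) < |VV (fa φ α) X H - 6 / Real.pi ^ 2 * H|}

lemma moment {ε : ℝ} (he : 0 < ε) (he1 : ε ≤ 1 / 4) {φ : ℕ → ℤ} {C0 : ℝ} (hC0 : 0 ≤ C0)
    (hC : ∀ A B j : ℕ, 1 ≤ j → j ≤ A → A ≤ B → ((solP φ A B j).card : ℝ) ≤ C0 * (B : ℝ) ^ (1 + ε / 2) * j ^ 2)
    (hM : S_MOMP) {N J : ℕ} (hN : 1 ≤ N) (hJ1 : (J : ℝ) ^ 2 ≤ (2 * (N : ℝ)) ^ (1 - ε))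
    (U1 U2 j : ℕ) (hU12 : U1 ≤ U2) (hU : U2 ≤ 6 * N) (hj : 1 ≤ j) (hjJ : j ≤ J) :
    ∫ ω, ‖ZZ (fa φ ω) U1 U2 j‖ ^ 2 ∂(volume.restrict (Set.Ioc (0 : ℝ) 1)) ≤
      (128 * C0) * (N : ℝ) ^ (2 - ε / 2) := by
  rw [← intervalIntegral.integral_of_le (by norm_num)]
  refine le_trans (hM φ U1 U2 j) ?_
  have hN1 : (1 : ℝ) ≤ N := by exact_mod_cast hN
  have hjr : (1 : ℝ) ≤ j := by exact_mod_cast hj
  have hjJr : (j : ℝ) ≤ J := by exact_mod_cast hjJ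
  have h1 := hC (U1 + j) (U2 + j) j hj (by omega) (by omega)
  have hJN : (J : ℝ) ≤ 2 * N := by
    have hJ1' : (1 : ℝ) ≤ J := hjr.trans hjJr
    have hJJ : (J : ℝ) ≤ (J : ℝ) ^ 2 := by nlinarith
    refine le_trans (hJJ.trans hJ1) ?_
    calc (2 * (N : ℝ)) ^ (1 - ε) ≤ (2 * (N : ℝ)) ^ (1 : ℝ) :=
          Real.rpow_le_rpow_of_exponent_le (by linarith) (by linarith)
      _ = 2 * N := Real.rpow_one _
  have hB : ((U2 + j : ℕ) : ℝ) ≤ 8 * N := by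
    have : (U2 : ℝ) ≤ 6 * N := by exact_mod_cast hU
    push_cast
    linarith
  have hB0 : (0 : ℝ) ≤ ((U2 + j : ℕ) : ℝ) := Nat.cast_nonneg _
  have h3 : ((U2 + j : ℕ) : ℝ) ^ (1 + ε / 2) ≤ 64 * (N : ℝ) ^ (1 + ε / 2) := by
    calc ((U2 + j : ℕ) : ℝ) ^ (1 + ε / 2) ≤ (8 * (N : ℝ)) ^ (1 + ε / 2) :=
          Real.rpow_le_rpow hB0 hB (by linarith)
      _ = 8 ^ (1 + ε / 2) * (N : ℝ) ^ (1 + ε / 2) := Real.mul_rpow (by norm_num) (by linarith)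
      _ ≤ 8 ^ (2 : ℝ) * (N : ℝ) ^ (1 + ε / 2) := by
          gcongr
          · norm_num
          · linarith
      _ = 64 * (N : ℝ) ^ (1 + ε / 2) := by norm_num
  have hP : 0 ≤ (N : ℝ) ^ (1 + ε / 2) := Real.rpow_nonneg (by linarith) _
  have e1 : (N : ℝ) ^ (1 + ε / 2) * j ^ 2 ≤ 2 * (N : ℝ) ^ (2 - ε / 2) := by
    have : (j : ℝ) ^ 2 ≤ 2 * (N : ℝ) ^ (1 - ε) := by
      refine le_trans (pow_le_pow_left₀ (by linarith) hjJr 2) (le_trans hJ1 ?_)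
      rw [Real.mul_rpow (by norm_num) (by linarith)]
      gcongr
      calc (2 : ℝ) ^ (1 - ε) ≤ 2 ^ (1 : ℝ) := Real.rpow_le_rpow_of_exponent_le (by norm_num) (by linarith)
        _ = 2 := Real.rpow_one _
    calc (N : ℝ) ^ (1 + ε / 2) * j ^ 2 ≤ (N : ℝ) ^ (1 + ε / 2) * (2 * (N : ℝ) ^ (1 - ε)) := by gcongr
      _ = 2 * ((N : ℝ) ^ (1 + ε / 2) * (N : ℝ) ^ (1 - ε)) := by ring
      _ = 2 * (N : ℝ) ^ (2 - ε / 2) := by
          rw [← Real.rpow_add (by linarith)]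
          congr 2
          ring
  calc ((solP φ (U1 + j) (U2 + j) j).card : ℝ) ≤ C0 * ((U2 + j : ℕ) : ℝ) ^ (1 + ε / 2) * j ^ 2 := h1
    _ ≤ C0 * (64 * (N : ℝ) ^ (1 + ε / 2)) * j ^ 2 := by gcongr
    _ = 64 * C0 * ((N : ℝ) ^ (1 + ε / 2) * j ^ 2) := by ring
    _ ≤ 64 * C0 * (2 * (N : ℝ) ^ (2 - ε / 2)) := by gcongr
    _ = (128 * C0) * (N : ℝ) ^ (2 - ε / 2) := by ring

/-- all sequences with different differences -/
theorem dist_ae (hU : S_UNI) (hM : S_MOMP) : ∀ ε : ℝ, 0 < ε → ∃ δ : ℝ, 0 < δ ∧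
    ∀ φ : ℕ → ℤ, Dist φ → ∀ᵐ α : ℝ, Good φ ε δ α := by
  intro ε' he'
  obtain ⟨ε, hε⟩ : ∃ ε, ε = min ε' (1 / 4) := ⟨_, rfl⟩
  have he : 0 < ε := by rw [hε]; exact lt_min he' (by norm_num)
  have he1 : ε ≤ 1 / 4 := by rw [hε]; exact min_le_right _ _
  have hee : ε ≤ ε' := by rw [hε]; exact min_le_left _ _
  obtain ⟨δ, hδ, C, hC1, hU⟩ := hU (ε / 2) (by linarith) (by linarith)
  refine ⟨δ / 2, by linarith, ?_⟩
  intro φ hφ
  apply ae_of_unit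
  obtain ⟨C0, hC0, hC⟩ := dist_few hφ (ε / 2) (by linarith)
  obtain ⟨r, hr⟩ : ∃ r : ℝ, r = 2 ^ (-(ε / 2 / 2)) := ⟨_, rfl⟩
  have hr0 : 0 ≤ r := by rw [hr]; positivity
  have hr1 : r < 1 := by
    rw [hr]; exact Real.rpow_lt_one_of_one_lt_of_neg (by norm_num) (by linarith)
  have hJP : ∀ k, (JP ε k : ℝ) ^ 2 ≤ (2 * ((2 ^ k : ℕ) : ℝ)) ^ (1 - ε) := fun k => by
    have h1 : (JP ε k : ℝ) ≤ √((2 * ((2 ^ k : ℕ) : ℝ)) ^ (1 - ε)) := Nat.floor_le (by positivity)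
    calc (JP ε k : ℝ) ^ 2 ≤ (√((2 * ((2 ^ k : ℕ) : ℝ)) ^ (1 - ε))) ^ 2 := by gcongr
      _ = (2 * ((2 ^ k : ℕ) : ℝ)) ^ (1 - ε) := Real.sq_sqrt (by positivity)
  have hBk : ∀ k, (volume.restrict (Set.Ioc (0 : ℝ) 1)) (EP φ ε δ C k) ≤
      ENNReal.ofReal (C * (128 * C0) * r ^ k) := by
    intro k
    have hN1 : 1 ≤ 2 ^ k := Nat.one_le_two_pow
    have hb := hU ℝ (volume.restrict (Set.Ioc (0 : ℝ) 1)) (fun α => fa φ α)
      (fun n => (fa_cont φ n).measurable) (fa_norm φ) (2 ^ k) (JP ε k) (128 * C0) hN1 ?_ (by positivity) ?_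
    · refine le_trans hb ?_
      apply ENNReal.ofReal_le_ofReal
      apply le_of_eq
      congr 1
      push_cast
      rw [hr, ← Real.rpow_natCast, ← Real.rpow_mul (by norm_num), ← Real.rpow_natCast,
        ← Real.rpow_mul (by norm_num)]
      congr 1; ring
    · have h9 : (JP ε k : ℝ) ≤ 2 * ((2 ^ k : ℕ) : ℝ) := by
        have h11 : (JP ε k : ℝ) ≤ (JP ε k : ℝ) ^ 2 := by
          rcases Nat.eq_zero_or_pos (JP ε k) with h0 | h0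
          · rw [h0]; norm_num
          · have : (1 : ℝ) ≤ (JP ε k : ℝ) := by exact_mod_cast h0
            nlinarith
        refine le_trans (h11.trans (hJP k)) ?_
        have h10 : (1 : ℝ) ≤ ((2 ^ k : ℕ) : ℝ) := by exact_mod_cast hN1
        calc (2 * ((2 ^ k : ℕ) : ℝ)) ^ (1 - ε) ≤ (2 * ((2 ^ k : ℕ) : ℝ)) ^ (1 : ℝ) :=
              Real.rpow_le_rpow_of_exponent_le (by linarith) (by linarith)
          _ = 2 * ((2 ^ k : ℕ) : ℝ) := Real.rpow_one _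
      exact_mod_cast h9
    · intro U1 U2 j hU12 hU2 hj hjJ
      exact moment he he1 hC0 hC hM hN1 (hJP k) U1 U2 j hU12 hU2 hj hjJ
  have hfin : (∑' k, (volume.restrict (Set.Ioc (0 : ℝ) 1)) (EP φ ε δ C k)) ≠ ⊤ := by
    have h1 : ∑' k, (volume.restrict (Set.Ioc (0 : ℝ) 1)) (EP φ ε δ C k) ≤
        ∑' k, ENNReal.ofReal (C * (128 * C0) * r ^ k) := ENNReal.tsum_le_tsum hBk
    exact ne_top_of_le_ne_top
      (((summable_geometric_of_lt_one hr0 hr1).mul_left (C * (128 * C0))).tsum_ofReal_ne_top) h1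
  filter_upwards [ae_eventually_notMem hfin] with α hα
  obtain ⟨K, hK⟩ := eventually_atTop.1 hα
  obtain ⟨X1, hX1⟩ := eventually_atTop.1
    ((tendsto_rpow_atTop (show (0 : ℝ) < δ / 2 by positivity)).eventually_ge_atTop C)
  refine ⟨max (2 ^ (K + 1)) X1, le_max_of_le_left (one_le_pow₀ (by norm_num)), ?_⟩
  intro X H hX hH hHX
  have hXK : (2 : ℝ) ^ (K + 1) ≤ X := (le_max_left _ _).trans hX
  have hXX := hX1 X ((le_max_right _ _).trans hX)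
  have hX1' : 1 ≤ X := (one_le_pow₀ (by norm_num)).trans hXK
  have hX0 : 0 < X := by linarith
  obtain ⟨k, hk1, hk2'⟩ := exists_nat_pow_near hX1' (by norm_num : (1 : ℝ) < 2)
  have hk2 : X ≤ 2 * 2 ^ k := by rw [pow_succ] at hk2'; linarith
  have hKk : K ≤ k := by
    by_contra h
    have h1 : k + 1 ≤ K := by omega
    have h2 : (2 : ℝ) ^ (k + 1) ≤ 2 ^ K := pow_le_pow_right₀ (by norm_num) h1
    have h3 : (2 : ℝ) ^ K ≤ 2 ^ (K + 1) := pow_le_pow_right₀ (by norm_num) (by omega)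
    linarith
  have hnb := hK k hKk
  have hH2 : H ^ 2 ≤ X ^ (1 - ε) := hHX.trans (Real.rpow_le_rpow_of_exponent_le hX1' (by linarith))
  have hH' : H ≤ X ^ (1 - ε) := by nlinarith
  have h5 : |VV (fa φ α) X H - 6 / Real.pi ^ 2 * H| ≤ C * H * X ^ (-δ) := by
    by_contra hlt
    apply hnb
    refine ⟨X, H, ?_, ?_, hH, ?_, ?_, not_le.1 hlt⟩
    · push_cast; exact hk1
    · push_cast; exact hk2
    · refine hH'.trans ?_
      calc X ^ (1 - ε) ≤ X ^ (1 : ℝ) := Real.rpow_le_rpow_of_exponent_le hX1' (by linarith)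
        _ = X := Real.rpow_one X
    · unfold JP
      apply Nat.floor_mono
      push_cast
      apply Real.le_sqrt_of_sq_le
      exact hH2.trans (Real.rpow_le_rpow hX0.le hk2 (by linarith))
  calc |VV (fa φ α) X H - 6 / Real.pi ^ 2 * H| ≤ C * H * X ^ (-δ) := h5
    _ ≤ X ^ (δ / 2) * H * X ^ (-δ) := by gcongr
    _ = H * (X ^ (δ / 2) * X ^ (-δ)) := by ring
    _ = H * X ^ (-(δ / 2)) := by
        rw [← Real.rpow_add hX0]
        congr 2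
        ring

end Pool.Agent.H27.KF.Cvx
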