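import Pool.Agent.H27.KF.Stm

/-!
Crew KF (MP_0575cc_nt): the union bound over the dyadic scales for `μ(n) e(a n̄ / p)`.
Adapted from `Pool.Agent.K1H88.GT.FINT` of the library.
-/

set_option autoImplicit false

namespace Pool.Agent.H27.KF

open Finset MeasureTheory Pool.Agent.K1H88.GT

/-- the exceptional residue classes -/
def ExK (ε δ C : ℝ) (p : ℕ) [NeZero p] : Set (ZMod p) := {a | ∃ X H : ℝ, (p : ℝ) ^ ε ≤ X ∧ 1 ≤ H ∧
  H ≤ X ^ (1 - ε) ∧ X * H ^ 2 ≤ (p : ℝ) ^ (1 - ε) ∧ C * H * X ^ (-δ) < |VV (kl p a) X H - 6 / Real.pi ^ 2 * H|}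

/-- Result for `μ(n) e(a n̄ / p)`. -/
def S_FINK : Prop := ∀ ε : ℝ, 0 < ε → ∃ δ : ℝ, 0 < δ ∧ ∃ C : ℝ, 0 < C ∧ ∀ (p : ℕ) [Fact p.Prime],
  ((ExK ε δ C p).ncard : ℝ) ≤ C * (p : ℝ) ^ (1 - δ)

namespace FINK

lemma kl_norm (p : ℕ) [NeZero p] (a : ZMod p) (n : ℕ) : ‖kl p a n‖ ^ 2 = if Squarefree n then 1 else 0 := by
  unfold kl
  split_ifs with h
  · rw [norm_mul, AddChar.norm_apply, mul_one]
    rcases ArithmeticFunction.moebius_ne_zero_iff_eq_or.1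
      (ArithmeticFunction.moebius_ne_zero_iff_squarefree.2 h) with h2 | h2 <;> rw [h2] <;> simp
  · rw [ArithmeticFunction.moebius_eq_zero_of_not_squarefree h]
    simp

lemma mono_eps {ε ε1 δ C : ℝ} {p : ℕ} [NeZero p] (hT : 1 ≤ (p : ℝ)) (he : ε1 ≤ ε) (h0 : 0 < ε1) :
    ExK ε δ C p ⊆ ExK ε1 δ C p := by
  rintro t ⟨X, H, h3, h4, h5, h6, h7⟩
  have hX : 1 ≤ X := by
    refine le_trans ?_ h3
    exact Real.one_le_rpow hT (by linarith)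
  refine ⟨X, H, ?_, h4, ?_, ?_, h7⟩
  · exact le_trans (Real.rpow_le_rpow_of_exponent_le hT he) h3
  · exact le_trans h5 (Real.rpow_le_rpow_of_exponent_le hX (by linarith))
  · exact le_trans h6 (Real.rpow_le_rpow_of_exponent_le hT (by linarith))

lemma mono_dc {ε δ δ' C C' : ℝ} {p : ℕ} [NeZero p] (hT : 1 ≤ (p : ℝ)) (h0 : 0 < ε) (hd : δ' ≤ δ) (hC : C ≤ C')
    (hC0 : 0 ≤ C) : ExK ε δ' C' p ⊆ ExK ε δ C p := by
  rintro t ⟨X, H, h3, h4, h5, h6, h7⟩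
  have hX : 1 ≤ X := le_trans (Real.one_le_rpow hT h0.le) h3
  refine ⟨X, H, h3, h4, h5, h6, lt_of_le_of_lt ?_ h7⟩
  have h8 : X ^ (-δ) ≤ X ^ (-δ') := Real.rpow_le_rpow_of_exponent_le hX (by linarith)
  have h9 : 0 ≤ X ^ (-δ) := Real.rpow_nonneg (by linarith) _
  have h10 : 0 ≤ H := by linarith
  have h11 : C * H ≤ C' * H := mul_le_mul_of_nonneg_right hC h10
  calc C * H * X ^ (-δ) ≤ C' * H * X ^ (-δ) := mul_le_mul_of_nonneg_right h11 h9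
    _ ≤ C' * H * X ^ (-δ') := mul_le_mul_of_nonneg_left h8 (mul_nonneg (le_trans hC0 hC) h10)

/-- the second moment in the range needed -/
lemma moment {ε : ℝ} (he : 0 < ε) (he1 : ε ≤ 1 / 4) {C0 : ℝ} (hC0 : 0 ≤ C0)
    (hC : ∀ p A B j : ℕ, p.Prime → 1 ≤ j → j ≤ A → B < p →
      ((solK p A B j).card : ℝ) ≤ C0 * (B : ℝ) ^ (1 + ε / 2) * j * (1 + (j : ℝ) * (B : ℝ) ^ 2 / p))
    (hM : S_MOM) {p : ℕ} [hp : Fact p.Prime] {N J : ℕ} (hN : 1 ≤ N) (hNT : 8 * N < p)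
    (hJ1 : (J : ℝ) ≤ (2 * (N : ℝ)) ^ (1 - ε)) (hJ2 : (J : ℝ) ^ 2 * N ≤ (p : ℝ) ^ (1 - ε))
    (U1 U2 j : ℕ) (hU : U2 ≤ 6 * N) (hj : 1 ≤ j) (hjJ : j ≤ J) :
    ∑ a : ZMod p, ‖ZZ (kl p a) U1 U2 j‖ ^ 2 ≤ (4224 * C0 * p) * (N : ℝ) ^ (2 - ε / 2) := by
  have hp0 : (0 : ℝ) < p := by exact_mod_cast hp.out.pos
  have hp1 : (1 : ℝ) ≤ p := by exact_mod_cast hp.out.one_lt.le
  refine le_trans (hM p U1 U2 j) ?_
  have hN1 : (1 : ℝ) ≤ N := by exact_mod_cast hN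
  have hjr : (1 : ℝ) ≤ j := by exact_mod_cast hj
  have hjJr : (j : ℝ) ≤ J := by exact_mod_cast hjJ
  have hJN : (J : ℝ) ≤ 2 * N := by
    refine le_trans hJ1 ?_
    calc (2 * (N : ℝ)) ^ (1 - ε) ≤ (2 * (N : ℝ)) ^ (1 : ℝ) :=
          Real.rpow_le_rpow_of_exponent_le (by linarith) (by linarith)
      _ = 2 * N := Real.rpow_one _
  have hJN' : J ≤ 2 * N := by exact_mod_cast hJN
  have h1 := hC p (U1 + j) (U2 + j) j hp.out hj (by omega) (by omega)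
  have hB : ((U2 + j : ℕ) : ℝ) ≤ 8 * N := by
    have : (U2 : ℝ) ≤ 6 * N := by exact_mod_cast hU
    push_cast
    linarith
  have hB0 : (0 : ℝ) ≤ ((U2 + j : ℕ) : ℝ) := Nat.cast_nonneg _
  have h3 : ((U2 + j : ℕ) : ℝ) ^ (1 + ε / 2) ≤ 64 * (N : ℝ) ^ (1 + ε / 2) := by
    calc ((U2 + j : ℕ) : ℝ) ^ (1 + ε / 2) ≤ (8 * (N : ℝ)) ^ (1 + ε / 2) :=
          Real.rpow_le_rpow hB0 hB (by linarith)
      _ = 8 ^ (1 + ε / 2) * (N : ℝ) ^ (1 + ε / 2) := Real.mul_rpow (by norm_num) (by linarith)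
      _ ≤ 8 ^ (2 : ℝ) * (N : ℝ) ^ (1 + ε / 2) := by
          gcongr
          · norm_num
          · linarith
      _ = 64 * (N : ℝ) ^ (1 + ε / 2) := by norm_num
  have hP : 0 ≤ (N : ℝ) ^ (1 + ε / 2) := Real.rpow_nonneg (by linarith) _
  have h5 : ((U2 + j : ℕ) : ℝ) ^ 2 ≤ 64 * (N : ℝ) ^ 2 := by
    calc ((U2 + j : ℕ) : ℝ) ^ 2 ≤ (8 * (N : ℝ)) ^ 2 := by gcongr
      _ = 64 * (N : ℝ) ^ 2 := by ring
  have e1 : (N : ℝ) ^ (1 + ε / 2) * j ≤ 2 * (N : ℝ) ^ (2 - ε / 2) := by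
    have : (j : ℝ) ≤ 2 * (N : ℝ) ^ (1 - ε) := by
      refine le_trans hjJr (le_trans hJ1 ?_)
      rw [Real.mul_rpow (by norm_num) (by linarith)]
      gcongr
      calc (2 : ℝ) ^ (1 - ε) ≤ 2 ^ (1 : ℝ) := Real.rpow_le_rpow_of_exponent_le (by norm_num) (by linarith)
        _ = 2 := Real.rpow_one _
    calc (N : ℝ) ^ (1 + ε / 2) * j ≤ (N : ℝ) ^ (1 + ε / 2) * (2 * (N : ℝ) ^ (1 - ε)) := by gcongr
      _ = 2 * ((N : ℝ) ^ (1 + ε / 2) * (N : ℝ) ^ (1 - ε)) := by ring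
      _ = 2 * (N : ℝ) ^ (2 - ε / 2) := by
          rw [← Real.rpow_add (by linarith)]
          congr 2
          ring
  have hNp : (N : ℝ) ≤ p := by
    have : (8 * N : ℕ) ≤ p := hNT.le
    have h8 : (8 : ℝ) * N ≤ p := by exact_mod_cast this
    linarith
  have e2 : (N : ℝ) ^ (1 + ε / 2) * (j * (j * (N : ℝ) ^ 2)) ≤ p * (N : ℝ) ^ (2 - ε / 2) := by
    have hjN : (j : ℝ) ^ 2 * N ≤ (p : ℝ) ^ (1 - ε) := le_trans (by gcongr) hJ2
    have e3 : (N : ℝ) ^ ε ≤ (p : ℝ) ^ ε := Real.rpow_le_rpow (by linarith) hNp he.le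
    calc (N : ℝ) ^ (1 + ε / 2) * (j * (j * (N : ℝ) ^ 2)) = (N : ℝ) ^ (1 + ε / 2) * N * (j ^ 2 * N) := by ring
      _ ≤ (N : ℝ) ^ (1 + ε / 2) * N * (p : ℝ) ^ (1 - ε) := by gcongr
      _ = (N : ℝ) ^ (2 + ε / 2) * (p : ℝ) ^ (1 - ε) := by
          congr 1
          nth_rw 2 [← Real.rpow_one (N : ℝ)]
          rw [← Real.rpow_add (by linarith)]
          congr 1
          ring
      _ = (N : ℝ) ^ (2 - ε / 2) * ((N : ℝ) ^ ε * (p : ℝ) ^ (1 - ε)) := by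
          rw [← mul_assoc, ← Real.rpow_add (by linarith)]
          congr 2
          ring
      _ ≤ (N : ℝ) ^ (2 - ε / 2) * ((p : ℝ) ^ ε * (p : ℝ) ^ (1 - ε)) := by gcongr
      _ = p * (N : ℝ) ^ (2 - ε / 2) := by
          rw [← Real.rpow_add hp0]
          rw [show ε + (1 - ε) = 1 by ring, Real.rpow_one, mul_comm]
  calc (p : ℝ) * ((solK p (U1 + j) (U2 + j) j).card : ℝ)
      ≤ p * (C0 * ((U2 + j : ℕ) : ℝ) ^ (1 + ε / 2) * j * (1 + (j : ℝ) * ((U2 + j : ℕ) : ℝ) ^ 2 / p)) := by gcongr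
    _ ≤ p * (C0 * (64 * (N : ℝ) ^ (1 + ε / 2)) * j * (1 + (j : ℝ) * (64 * (N : ℝ) ^ 2) / p)) := by gcongr
    _ = 64 * C0 * p * ((N : ℝ) ^ (1 + ε / 2) * j) +
        4096 * C0 * ((N : ℝ) ^ (1 + ε / 2) * (j * (j * (N : ℝ) ^ 2))) := by
        field_simp
        ring
    _ ≤ 64 * C0 * p * (2 * (N : ℝ) ^ (2 - ε / 2)) + 4096 * C0 * (p * (N : ℝ) ^ (2 - ε / 2)) := by
        gcongr
    _ = (4224 * C0 * p) * (N : ℝ) ^ (2 - ε / 2) := by ring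

/-- the indices `k` with `T ^ ε / 2 ≤ 2 ^ k ≤ T ^ (1 - ε)` -/
noncomputable def KK (ε T : ℝ) : Finset ℕ :=
  (range (⌊Real.logb 2 T⌋₊ + 1)).filter (fun k => T ^ ε / 2 ≤ (2 : ℝ) ^ k ∧ (2 : ℝ) ^ k ≤ T ^ (1 - ε))

/-- the number of summands -/
noncomputable def JJ (ε T : ℝ) (N : ℕ) : ℕ := ⌊min ((2 * (N : ℝ)) ^ (1 - ε)) (√(T ^ (1 - ε) / N))⌋₊

/-- the exceptional set of one dyadic block -/
def EE (ε δ C : ℝ) (p : ℕ) [NeZero p] (N : ℕ) : Set (ZMod p) :=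
  {t | ∃ X H : ℝ, (N : ℝ) ≤ X ∧ X ≤ 2 * N ∧ 1 ≤ H ∧ H ≤ X ∧ ⌊H⌋₊ ≤ JJ ε p N ∧
        C * H * X ^ (-δ) < |VV (kl p t) X H - 6 / Real.pi ^ 2 * H|}

lemma JJ1 {ε T : ℝ} (hT : 1 ≤ T) {N : ℕ} : (JJ ε T N : ℝ) ≤ (2 * (N : ℝ)) ^ (1 - ε) := by
  refine le_trans (Nat.floor_le ?_) (min_le_left _ _)
  refine le_min ?_ ?_
  · positivity
  · positivity

lemma JJ2 {ε T : ℝ} (hT : 1 ≤ T) {N : ℕ} (hN : 1 ≤ N) : (JJ ε T N : ℝ) ^ 2 * N ≤ T ^ (1 - ε) := by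
  have hN0 : (0 : ℝ) < N := by exact_mod_cast hN
  have h1 : (JJ ε T N : ℝ) ≤ √(T ^ (1 - ε) / N) := by
    refine le_trans (Nat.floor_le ?_) (min_le_right _ _)
    refine le_min ?_ ?_
    · positivity
    · positivity
  have h2 : (JJ ε T N : ℝ) ^ 2 ≤ T ^ (1 - ε) / N := by
    calc (JJ ε T N : ℝ) ^ 2 ≤ (√(T ^ (1 - ε) / N)) ^ 2 := by gcongr
      _ = T ^ (1 - ε) / N := Real.sq_sqrt (by positivity)
  rwa [le_div_iff₀ hN0] at h2

lemma cover {ε δ C : ℝ} {p : ℕ} [NeZero p] (he : 0 < ε) (he1 : ε ≤ 1 / 4) (hT : 1 ≤ (p : ℝ)) :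
    ExK ε δ C p ⊆ ⋃ k ∈ KK ε p, EE ε δ C p (2 ^ k) := by
  rintro t ⟨X, H, h3, h4, h5, h6, h7⟩
  have hT0 : (0 : ℝ) < p := by linarith
  have hX : 1 ≤ X := le_trans (Real.one_le_rpow hT he.le) h3
  have hXT : X ≤ (p : ℝ) ^ (1 - ε) := by
    calc X = X * 1 := (mul_one X).symm
      _ ≤ X * H ^ 2 := by
          gcongr
          nlinarith
      _ ≤ (p : ℝ) ^ (1 - ε) := h6
  obtain ⟨k, hk1, hk2⟩ := exists_nat_pow_near hX (by norm_num : (1 : ℝ) < 2)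
  have hk2' : X ≤ 2 * 2 ^ k := by rw [pow_succ] at hk2; linarith
  have hkT : (2 : ℝ) ^ k ≤ (p : ℝ) ^ (1 - ε) := le_trans hk1 hXT
  have hkT' : (2 : ℝ) ^ k ≤ p := by
    refine hkT.trans ?_
    calc (p : ℝ) ^ (1 - ε) ≤ (p : ℝ) ^ (1 : ℝ) := Real.rpow_le_rpow_of_exponent_le hT (by linarith)
      _ = p := Real.rpow_one _
  have hkpos : (0 : ℝ) < 2 ^ k := by positivity
  rw [Set.mem_iUnion₂]
  refine ⟨k, ?_, ?_⟩
  · unfold KK
    rw [mem_filter, mem_range]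
    refine ⟨?_, ?_, hkT⟩
    · rw [Nat.lt_succ_iff]
      apply Nat.le_floor
      rw [Real.le_logb_iff_rpow_le (by norm_num) hT0, Real.rpow_natCast]
      exact hkT'
    · linarith
  · refine ⟨X, H, ?_, ?_, h4, ?_, ?_, h7⟩
    · push_cast; exact hk1
    · push_cast; exact hk2'
    · refine le_trans h5 ?_
      calc X ^ (1 - ε) ≤ X ^ (1 : ℝ) := Real.rpow_le_rpow_of_exponent_le hX (by linarith)
        _ = X := Real.rpow_one X
    · unfold JJ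
      apply Nat.floor_mono
      push_cast
      refine le_min ?_ ?_
      · refine le_trans h5 ?_
        exact Real.rpow_le_rpow (by linarith) hk2' (by linarith)
      · apply Real.le_sqrt_of_sq_le
        rw [le_div_iff₀ hkpos]
        calc H ^ 2 * 2 ^ k ≤ H ^ 2 * X := by gcongr
          _ = X * H ^ 2 := mul_comm _ _
          _ ≤ (p : ℝ) ^ (1 - ε) := h6

lemma card_KK {ε T : ℝ} (hT : 1 ≤ T) : ((KK ε T).card : ℝ) ≤ 1 + 2 * Real.log T := by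
  have h1 : (KK ε T).card ≤ ⌊Real.logb 2 T⌋₊ + 1 := by
    refine le_trans (card_filter_le _ _) ?_
    rw [card_range]
  have h2 : (⌊Real.logb 2 T⌋₊ : ℝ) ≤ Real.logb 2 T :=
    Nat.floor_le (Real.logb_nonneg (by norm_num) hT)
  have h3 : Real.logb 2 T ≤ 2 * Real.log T := by
    rw [Real.logb, div_le_iff₀ (Real.log_pos (by norm_num))]
    have := Real.log_two_gt_d9
    nlinarith [Real.log_nonneg hT]
  have h4 : ((KK ε T).card : ℝ) ≤ (⌊Real.logb 2 T⌋₊ : ℝ) + 1 := by exact_mod_cast h1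
  linarith

end FINK

open FINK in
theorem t_FINK (hU : S_UNI) (hC : S_CNT) (hM : S_MOM) : S_FINK := by
  intro ε' he'
  obtain ⟨ε, hε⟩ : ∃ ε, ε = min ε' (1 / 4) := ⟨_, rfl⟩
  have he : 0 < ε := by rw [hε]; exact lt_min he' (by norm_num)
  have he1 : ε ≤ 1 / 4 := by rw [hε]; exact min_le_right _ _
  have hee : ε ≤ ε' := by rw [hε]; exact min_le_left _ _
  obtain ⟨C0, hC0, hC⟩ := hC (ε / 2) (by linarith)
  obtain ⟨δ, hδ, C, hC1, hU⟩ := hU (ε / 2) (by linarith) (by linarith)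
  obtain ⟨M0, hM0⟩ : ∃ M0, M0 = 4224 * C0 := ⟨_, rfl⟩
  have hM00 : 0 ≤ M0 := by rw [hM0]; positivity
  obtain ⟨γ, hγ⟩ : ∃ γ, γ = ε * (ε / 4) / 2 := ⟨_, rfl⟩
  have hγ0 : 0 < γ := by rw [hγ]; positivity
  have hγ1 : γ ≤ 1 := by rw [hγ]; nlinarith
  obtain ⟨C2, hC2⟩ : ∃ C2, C2 = (1 + 2 / γ) * (C * M0 * 2) := ⟨_, rfl⟩
  have hC20 : 0 ≤ C2 := by rw [hC2]; positivity
  obtain ⟨C3, hC3⟩ : ∃ C3 : ℝ, C3 = 8 ^ (1 / ε) := ⟨_, rfl⟩
  have hC30 : 0 < C3 := by rw [hC3]; positivity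
  refine ⟨min δ γ, lt_min hδ hγ0, max C (max C2 C3), by positivity, ?_⟩
  intro p hp
  have hT0 : (0 : ℝ) < p := by exact_mod_cast hp.out.pos
  have hT : (1 : ℝ) ≤ p := by exact_mod_cast hp.out.one_lt.le
  have hmin1 : min δ γ ≤ 1 := (min_le_right _ _).trans hγ1
  have hmin0 : 0 < min δ γ := lt_min hδ hγ0
  by_cases hbig : (p : ℝ) ^ ε ≤ 8
  · -- small primes
    have hpC : (p : ℝ) ≤ C3 := by
      rw [hC3]
      calc (p : ℝ) = ((p : ℝ) ^ ε) ^ (1 / ε) := by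
            rw [← Real.rpow_mul hT0.le, mul_one_div_cancel he.ne', Real.rpow_one]
        _ ≤ 8 ^ (1 / ε) := Real.rpow_le_rpow (by positivity) hbig (by positivity)
    have h1 : ((ExK ε' (min δ γ) (max C (max C2 C3)) p).ncard : ℝ) ≤ p := by
      have : (ExK ε' (min δ γ) (max C (max C2 C3)) p).ncard ≤ p := by
        refine (Set.ncard_le_ncard (Set.subset_univ _) Set.finite_univ).trans ?_
        rw [Set.ncard_univ, Nat.card_eq_fintype_card, ZMod.card]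
      exact_mod_cast this
    refine h1.trans (hpC.trans ?_)
    have h2 : (1 : ℝ) ≤ (p : ℝ) ^ (1 - min δ γ) := Real.one_le_rpow hT (by linarith)
    calc C3 = C3 * 1 := (mul_one _).symm
      _ ≤ max C (max C2 C3) * (p : ℝ) ^ (1 - min δ γ) := by
          gcongr
          exact le_trans (le_max_right _ _) (le_max_right _ _)
  rw [not_le] at hbig
  have s1 : ExK ε' (min δ γ) (max C (max C2 C3)) p ⊆ ExK ε δ C p :=
    (mono_eps hT hee he).trans (mono_dc hT he (min_le_left _ _) (le_max_left _ _) (by linarith))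
  have key : ∀ k ∈ KK ε p, ((EE ε δ C p (2 ^ k)).ncard : ℝ) ≤ C * M0 * 2 * (p : ℝ) ^ (1 - 2 * γ) := by
    intro k hk
    unfold KK at hk
    rw [mem_filter] at hk
    obtain ⟨-, hk1, hk2⟩ := hk
    have hkpos : (0 : ℝ) < 2 ^ k := by positivity
    have hN1 : 1 ≤ 2 ^ k := Nat.one_le_two_pow
    have h8N : 8 * 2 ^ k < p := by
      have : (8 : ℝ) * 2 ^ k < p := by
        calc (8 : ℝ) * 2 ^ k ≤ 8 * (p : ℝ) ^ (1 - ε) := by gcongr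
          _ < (p : ℝ) ^ ε * (p : ℝ) ^ (1 - ε) := by gcongr
          _ = p := by rw [← Real.rpow_add hT0, show ε + (1 - ε) = 1 by ring, Real.rpow_one]
      exact_mod_cast this
    letI : MeasurableSpace (ZMod p) := ⊤
    have hb := hU (ZMod p) Measure.count (fun t => kl p t) (fun n => measurable_from_top) (kl_norm p)
      (2 ^ k) (JJ ε p (2 ^ k)) (4224 * C0 * p) hN1 ?_ (by positivity) ?_
    · have hfin : (EE ε δ C p (2 ^ k)).Finite := Set.toFinite _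
      have hb2 : Measure.count (EE ε δ C p (2 ^ k)) ≤
          ENNReal.ofReal (C * (4224 * C0 * p) * ((2 ^ k : ℕ) : ℝ) ^ (-(ε / 2 / 2))) := hb
      rw [Measure.count_apply_finite _ hfin] at hb2
      have hb3 : (((hfin.toFinset.card : ℕ) : ℝ)) ≤
          C * (4224 * C0 * p) * ((2 ^ k : ℕ) : ℝ) ^ (-(ε / 2 / 2)) := by
        have h0 : 0 ≤ C * (4224 * C0 * p) * ((2 ^ k : ℕ) : ℝ) ^ (-(ε / 2 / 2)) := by positivity
        rw [← ENNReal.ofReal_natCast] at hb2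
        exact (ENNReal.ofReal_le_ofReal_iff h0).1 hb2
      have hcard : (EE ε δ C p (2 ^ k)).ncard = hfin.toFinset.card := Set.ncard_eq_toFinset_card _ hfin
      rw [hcard]
      refine hb3.trans ?_
      have h8 : ((2 ^ k : ℕ) : ℝ) ^ (-(ε / 2 / 2)) ≤ 2 * (p : ℝ) ^ (-(2 * γ)) := by
        push_cast
        calc ((2 : ℝ) ^ k) ^ (-(ε / 2 / 2)) ≤ ((p : ℝ) ^ ε / 2) ^ (-(ε / 2 / 2)) :=
              Real.rpow_le_rpow_of_nonpos (by positivity) hk1 (by linarith)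
          _ = ((p : ℝ) ^ ε) ^ (-(ε / 2 / 2)) / 2 ^ (-(ε / 2 / 2)) := Real.div_rpow (by positivity) (by norm_num) _
          _ = ((p : ℝ) ^ ε) ^ (-(ε / 2 / 2)) * 2 ^ (ε / 2 / 2) := by
              rw [Real.rpow_neg (by norm_num : (0:ℝ) ≤ 2), div_inv_eq_mul]
          _ ≤ ((p : ℝ) ^ ε) ^ (-(ε / 2 / 2)) * 2 ^ (1 : ℝ) := by
              gcongr
              · norm_num
              · linarith
          _ = 2 * (p : ℝ) ^ (-(2 * γ)) := by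
              rw [← Real.rpow_mul hT0.le, Real.rpow_one, mul_comm, hγ]
              congr 2
              ring
      calc C * (4224 * C0 * p) * ((2 ^ k : ℕ) : ℝ) ^ (-(ε / 2 / 2))
          ≤ C * (4224 * C0 * p) * (2 * (p : ℝ) ^ (-(2 * γ))) := by gcongr
        _ = C * M0 * 2 * ((p : ℝ) ^ (1 : ℝ) * (p : ℝ) ^ (-(2 * γ))) := by rw [hM0, Real.rpow_one]; ring
        _ = C * M0 * 2 * (p : ℝ) ^ (1 - 2 * γ) := by
            rw [← Real.rpow_add hT0]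
            rfl
    · have h9 : (JJ ε p (2 ^ k) : ℝ) ≤ 2 * ((2 ^ k : ℕ) : ℝ) := by
        refine le_trans (JJ1 hT) ?_
        have h10 : (1 : ℝ) ≤ ((2 ^ k : ℕ) : ℝ) := by exact_mod_cast hN1
        calc (2 * ((2 ^ k : ℕ) : ℝ)) ^ (1 - ε) ≤ (2 * ((2 ^ k : ℕ) : ℝ)) ^ (1 : ℝ) :=
              Real.rpow_le_rpow_of_exponent_le (by linarith) (by linarith)
          _ = 2 * ((2 ^ k : ℕ) : ℝ) := Real.rpow_one _
      exact_mod_cast h9
    · intro U1 U2 j _ hU2 hj hjJ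
      rw [integral_count]
      exact moment he he1 hC0 hC hM hN1 h8N (JJ1 hT) (JJ2 hT hN1) U1 U2 j hU2 hj hjJ
  have hun : ((ExK ε' (min δ γ) (max C (max C2 C3)) p).ncard : ℝ) ≤
      ∑ k ∈ KK ε p, ((EE ε δ C p (2 ^ k)).ncard : ℝ) := by
    have h1 : (ExK ε' (min δ γ) (max C (max C2 C3)) p).ncard ≤ (⋃ k ∈ KK ε p, EE ε δ C p (2 ^ k)).ncard :=
      Set.ncard_le_ncard (s1.trans (cover he he1 hT)) (Set.toFinite _)
    have h2 : (⋃ k ∈ KK ε p, EE ε δ C p (2 ^ k)).ncard ≤ ∑ k ∈ KK ε p, (EE ε δ C p (2 ^ k)).ncard :=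
      Finset.set_ncard_biUnion_le _ _
    exact_mod_cast h1.trans h2
  refine hun.trans (le_trans (Finset.sum_le_sum key) ?_)
  rw [Finset.sum_const, nsmul_eq_mul]
  have h11 : 1 + 2 * Real.log p ≤ (1 + 2 / γ) * (p : ℝ) ^ γ := by
    have h12 := Real.log_le_rpow_div hT0.le hγ0
    have h13 : 1 ≤ (p : ℝ) ^ γ := Real.one_le_rpow hT hγ0.le
    calc 1 + 2 * Real.log p ≤ (p : ℝ) ^ γ + 2 * ((p : ℝ) ^ γ / γ) := by linarith
      _ = (1 + 2 / γ) * (p : ℝ) ^ γ := by ring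
  have h14 : 0 ≤ C * M0 * 2 * (p : ℝ) ^ (1 - 2 * γ) := by positivity
  calc ((KK ε p).card : ℝ) * (C * M0 * 2 * (p : ℝ) ^ (1 - 2 * γ))
      ≤ ((1 + 2 / γ) * (p : ℝ) ^ γ) * (C * M0 * 2 * (p : ℝ) ^ (1 - 2 * γ)) := by
        gcongr
        exact le_trans (card_KK hT) h11
    _ = C2 * ((p : ℝ) ^ γ * (p : ℝ) ^ (1 - 2 * γ)) := by rw [hC2]; ring
    _ = C2 * (p : ℝ) ^ (1 - γ) := by
        rw [← Real.rpow_add hT0]
        congr 2
        ring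
    _ ≤ max C (max C2 C3) * (p : ℝ) ^ (1 - min δ γ) := by
        gcongr
        · exact le_trans (le_max_left _ _) (le_max_right _ _)
        · exact min_le_right _ _

end Pool.Agent.H27.KF
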