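import Pool.Graph.R_pool_sql_team_seeded_efc1946e.K1H88.GT.Main2
import Pool.Agent.H27.KF.Uni

/-!
Crew KF (MP_0575cc_nt): the dimension of the set of the exceptional `α`, for general sequences, and the final theorems.
The proof of `dim_few` is the proof of the library's `t_HD` (`Pool.Agent.K1H88.GT.HD`), which treats polynomials.
-/

set_option autoImplicit false

namespace Pool.Agent.H27.KF

open Finset MeasureTheory Pool.Agent.K1H88.GT Filter

open HD BC in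
/-- **The exceptional `α` have Hausdorff dimension less than one**, for every sequence with few solutions of polynomial
growth (the proof of `t_HD` of the library, which is for polynomials). -/
theorem dim_few (hU : S_UNI) (hL : S_LSP) : ∀ ε : ℝ, 0 < ε → ∃ δ : ℝ, 0 < δ ∧
    ∀ φ : ℕ → ℤ, Few φ → ∀ d G : ℕ, 2 ≤ d → (∀ n : ℕ, 1 ≤ n → |φ n| ≤ G * (n : ℤ) ^ d) →
      dimH {α : ℝ | ¬ Good φ ε δ α} ≤ ENNReal.ofReal (1 - min ε (1 / 4) / (8 * d)) := by
  classical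
  intro ε' he'
  obtain ⟨ε, hε⟩ : ∃ ε, ε = min ε' (1 / 4) := ⟨_, rfl⟩
  have he : 0 < ε := by rw [hε]; exact lt_min he' (by norm_num)
  have he1 : ε ≤ 1 / 4 := by rw [hε]; exact min_le_right _ _
  have hee : ε ≤ ε' := by rw [hε]; exact min_le_left _ _
  obtain ⟨δ, hδ, C, hC1, hU⟩ := hU (ε / 2) (by linarith) (by linarith)
  refine ⟨δ / 2, by linarith, ?_⟩
  intro φ hF d G hP hGφ
  obtain ⟨C0, hC0, hCP⟩ := hF (ε / 2) (by linarith)
  rw [← hε]
  refine le_trans dim_all ?_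
  have hd2 : (2 : ℝ) ≤ d := by exact_mod_cast hP
  obtain ⟨s, hs⟩ : ∃ s : ℝ, s = 1 - ε / (8 * d) := ⟨_, rfl⟩
  have hx : ε / (8 * d) ≤ 1 / 64 := by
    rw [div_le_iff₀ (by positivity)]
    linarith
  have hs0 : 0 < s := by rw [hs]; linarith
  rw [← hs]
  have hq1 : (2 : ℝ) ^ (-(ε / 8)) < 1 := Real.rpow_lt_one_of_one_lt_of_neg (by norm_num) (by linarith)
  obtain ⟨D, hD⟩ : ∃ D : ℝ, D = C * (128 * C0 * (1 + 14 * (2 * G * 8 ^ d))) := ⟨_, rfl⟩
  have hD0 : 0 ≤ D := by rw [hD]; positivity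
  have key := hausdorff_zero (S := {α : ℝ | 0 ≤ α ∧ α < 1 ∧ ¬ Good φ ε' (δ / 2) α}) hs0
    (fun k => (2 ^ k) ^ d) (fun k => ?_) (BB φ ε δ C d) ?_ hD0 (by positivity) hq1 ?_
  · have h1 : dimH {α : ℝ | 0 ≤ α ∧ α < 1 ∧ ¬ Good φ ε' (δ / 2) α} ≤ ((Real.toNNReal s : NNReal) : ENNReal) := by
      apply dimH_le_of_hausdorffMeasure_ne_top
      rw [Real.coe_toNNReal s hs0.le, key]
      exact ENNReal.zero_ne_top
    exact h1
  · calc 2 ^ k = (2 ^ k) ^ 1 := (pow_one _).symm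
      _ ≤ (2 ^ k) ^ d := Nat.pow_le_pow_right (by positivity) (by omega)
  · rintro x ⟨hx0, hx1, hxG⟩
    have h1 : ∃ᶠ k in atTop, x ∈ EP φ ε δ C k := by
      by_contra h
      apply hxG
      rw [not_frequently] at h
      exact good_of hδ he hee he1 h
    refine h1.mono fun k hk => ?_
    have hRpos : (0 : ℝ) < ((2 ^ k) ^ d : ℕ) := by positivity
    have hfl := Nat.floor_le (mul_nonneg hx0 hRpos.le)
    have hfl2 := Nat.lt_floor_add_one (x * (((2 ^ k) ^ d : ℕ) : ℝ))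
    have b1 : (⌊x * (((2 ^ k) ^ d : ℕ) : ℝ)⌋₊ : ℝ) / ((2 ^ k) ^ d : ℕ) ≤ x := by
      rw [div_le_iff₀ hRpos]; exact hfl
    have b2 : x ≤ ((⌊x * (((2 ^ k) ^ d : ℕ) : ℝ)⌋₊ : ℝ) + 1) / ((2 ^ k) ^ d : ℕ) := by
      rw [le_div_iff₀ hRpos]; exact hfl2.le
    refine ⟨⌊x * (((2 ^ k) ^ d : ℕ) : ℝ)⌋₊, ?_, b1, b2⟩
    unfold BB
    rw [mem_filter, mem_range]
    refine ⟨?_, x, b1, b2, hk⟩
    have b3 : (⌊x * (((2 ^ k) ^ d : ℕ) : ℝ)⌋₊ : ℝ) < ((2 ^ k) ^ d : ℕ) := by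
      refine lt_of_le_of_lt hfl ?_
      calc x * (((2 ^ k) ^ d : ℕ) : ℝ) < 1 * (((2 ^ k) ^ d : ℕ) : ℝ) := by gcongr
        _ = _ := one_mul _
    exact_mod_cast b3
  · intro k
    have h1 := BB_card hU hL he he1 hC0 hCP (by linarith) hGφ k
    have h2pos : (0 : ℝ) < 2 ^ k := by positivity
    have e1 : ((2 : ℝ) ^ k) ^ d = (2 : ℝ) ^ ((k : ℝ) * d) := by
      rw [← Real.rpow_natCast, ← Real.rpow_natCast, ← Real.rpow_mul (by norm_num)]
    calc ((BB φ ε δ C d k).card : ℝ) * (1 / (((2 ^ k) ^ d : ℕ) : ℝ)) ^ s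
        ≤ (D * ((2 : ℝ) ^ k) ^ d * (2 ^ k) ^ (-(ε / 2 / 2))) * (1 / (((2 ^ k) ^ d : ℕ) : ℝ)) ^ s := by
          rw [hD]
          gcongr
      _ = D * (2 ^ (-(ε / 8))) ^ k := by
          push_cast
          rw [e1, one_div, Real.inv_rpow (by positivity), ← Real.rpow_neg (by positivity),
            ← Real.rpow_natCast 2 k, ← Real.rpow_mul (by norm_num), ← Real.rpow_mul (by norm_num), mul_assoc,
            ← Real.rpow_add (by norm_num), mul_assoc, ← Real.rpow_add (by norm_num),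
            ← Real.rpow_natCast (2 ^ (-(ε / 8))) k, ← Real.rpow_mul (by norm_num)]
          congr 2
          rw [hs]
          field_simp
          ring

end Pool.Agent.H27.KF
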