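import Pool.Agent.H27.KF.Dim

/-!
Crew KF (MP_0575cc_nt): the sequences `φ(n) = β P(b_n) + O(1)`.
-/

set_option autoImplicit false

namespace Pool.Agent.H27.KF

open Finset MeasureTheory Pool.Agent.K1H88.GT Filter

/-- growth of `φ` -/
lemma growth (P : Polynomial ℤ) (b : ℕ → ℕ) (K e : ℕ) (hb : ∀ n, 1 ≤ n → b n ≤ K * n ^ e) (β C : ℝ) (φ : ℕ → ℤ)
    (hφ : ∀ n, |(φ n : ℝ) - β * ((P.eval (b n : ℤ) : ℤ) : ℝ)| ≤ C) :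
    ∃ G : ℕ, ∀ n : ℕ, 1 ≤ n → |φ n| ≤ G * (n : ℤ) ^ (e * P.natDegree) := by
  obtain ⟨C1, hC1⟩ := Pool.Agent.K1H58.GT.t_GRO P
  have hC : 0 ≤ C := (abs_nonneg _).trans (hφ 0)
  obtain ⟨G, hG⟩ : ∃ G : ℕ, |β| * |((P.eval (0 : ℤ) : ℤ) : ℝ)| + |β| * (C1 * (K : ℝ) ^ P.natDegree) + C ≤ G :=
    exists_nat_ge _
  refine ⟨G, fun n hn => ?_⟩
  have hn1 : (1 : ℝ) ≤ (n : ℝ) := by exact_mod_cast hn
  have hpow : (1 : ℝ) ≤ (n : ℝ) ^ (e * P.natDegree) := one_le_pow₀ hn1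
  have hval : |((P.eval (b n : ℤ) : ℤ) : ℝ)| ≤
      (|((P.eval (0 : ℤ) : ℤ) : ℝ)| + C1 * (K : ℝ) ^ P.natDegree) * (n : ℝ) ^ (e * P.natDegree) := by
    rcases Nat.eq_zero_or_pos (b n) with h0 | h0
    · rw [h0]
      have h2 : 0 ≤ (C1 : ℝ) * (K : ℝ) ^ P.natDegree := by positivity
      calc |((P.eval ((0 : ℕ) : ℤ) : ℤ) : ℝ)| = |((P.eval (0 : ℤ) : ℤ) : ℝ)| * 1 := by simp
        _ ≤ (|((P.eval (0 : ℤ) : ℤ) : ℝ)| + C1 * (K : ℝ) ^ P.natDegree) * (n : ℝ) ^ (e * P.natDegree) := by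
            gcongr
            linarith
    · have h1 : |((P.eval (b n : ℤ) : ℤ) : ℝ)| ≤ C1 * (b n : ℝ) ^ P.natDegree := by
        have := hC1 (b n) h0
        have h3 : ((|P.eval (b n : ℤ)| : ℤ) : ℝ) ≤ ((C1 * (b n : ℤ) ^ P.natDegree : ℤ) : ℝ) := by exact_mod_cast this
        push_cast at h3
        exact h3
      have h2 : (b n : ℝ) ≤ K * (n : ℝ) ^ e := by exact_mod_cast hb n hn
      calc |((P.eval (b n : ℤ) : ℤ) : ℝ)| ≤ C1 * (b n : ℝ) ^ P.natDegree := h1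
        _ ≤ C1 * (K * (n : ℝ) ^ e) ^ P.natDegree := by gcongr
        _ = (0 + C1 * (K : ℝ) ^ P.natDegree) * (n : ℝ) ^ (e * P.natDegree) := by rw [mul_pow, ← pow_mul]; ring
        _ ≤ (|((P.eval (0 : ℤ) : ℤ) : ℝ)| + C1 * (K : ℝ) ^ P.natDegree) * (n : ℝ) ^ (e * P.natDegree) := by
            gcongr
            exact abs_nonneg _
  have h1 : |(φ n : ℝ)| ≤ G * (n : ℝ) ^ (e * P.natDegree) := by
    have h2 : |(φ n : ℝ)| ≤ |(φ n : ℝ) - β * ((P.eval (b n : ℤ) : ℤ) : ℝ)| + |β * ((P.eval (b n : ℤ) : ℤ) : ℝ)| := by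
      have := abs_add_le ((φ n : ℝ) - β * ((P.eval (b n : ℤ) : ℤ) : ℝ)) (β * ((P.eval (b n : ℤ) : ℤ) : ℝ))
      rwa [sub_add_cancel] at this
    rw [abs_mul] at h2
    calc |(φ n : ℝ)| ≤ C + |β| * |((P.eval (b n : ℤ) : ℤ) : ℝ)| := h2.trans (by gcongr; exact hφ n)
      _ ≤ C * (n : ℝ) ^ (e * P.natDegree) + |β| * ((|((P.eval (0 : ℤ) : ℤ) : ℝ)| + C1 * (K : ℝ) ^ P.natDegree) *
          (n : ℝ) ^ (e * P.natDegree)) := by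
          gcongr
          nlinarith
      _ = (|β| * |((P.eval (0 : ℤ) : ℤ) : ℝ)| + |β| * (C1 * (K : ℝ) ^ P.natDegree) + C) *
          (n : ℝ) ^ (e * P.natDegree) := by ring
      _ ≤ G * (n : ℝ) ^ (e * P.natDegree) := by gcongr
  have h3 : ((|φ n| : ℤ) : ℝ) ≤ ((G * (n : ℤ) ^ (e * P.natDegree) : ℤ) : ℝ) := by
    push_cast
    exact h1
  exact_mod_cast h3

/-- few solutions -/
lemma few_of (hF : S_FEW) (P : Polynomial ℤ) (hP : 2 ≤ P.natDegree) (b : ℕ → ℕ) (K e : ℕ) (hbi : Function.Injective b)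
    (hb : ∀ n, 1 ≤ n → b n ≤ K * n ^ e) (β C : ℝ) (hβ : β ≠ 0) (φ : ℕ → ℤ)
    (hφ : ∀ n, |(φ n : ℝ) - β * ((P.eval (b n : ℤ) : ℤ) : ℝ)| ≤ C) : Few φ := by
  refine hF P hP b (K + e + b 0 + 1) hbi (fun n => ?_) β C hβ φ hφ
  rcases Nat.eq_zero_or_pos n with h0 | h0
  · subst h0
    have : 1 ≤ (0 + 1) ^ (K + e + b 0 + 1) := Nat.one_le_pow _ _ (by omega)
    nlinarith
  · have h1 : n ^ e ≤ (n + 1) ^ (K + e + b 0 + 1) :=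
      (Nat.pow_le_pow_left (by omega) e).trans (Nat.pow_le_pow_right (by omega) (by omega))
    calc b n ≤ K * n ^ e := hb n h0
      _ ≤ (K + e + b 0 + 1) * (n + 1) ^ (K + e + b 0 + 1) := Nat.mul_le_mul (by omega) h1

/-- the dimension of the exceptional set -/
theorem seq_dim (hF : S_FEW) : ∀ ε : ℝ, 0 < ε → ∃ δ : ℝ, 0 < δ ∧
    ∀ P : Polynomial ℤ, 2 ≤ P.natDegree → ∀ (b : ℕ → ℕ) (K e : ℕ), Function.Injective b → 1 ≤ e →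
      (∀ n, 1 ≤ n → b n ≤ K * n ^ e) → ∀ (β C : ℝ), β ≠ 0 → ∀ φ : ℕ → ℤ,
      (∀ n, |(φ n : ℝ) - β * ((P.eval (b n : ℤ) : ℤ) : ℝ)| ≤ C) →
      dimH {α : ℝ | ¬ BC.Good φ ε δ α} ≤ ENNReal.ofReal (1 - min ε (1 / 4) / (8 * (e * P.natDegree))) := by
  intro ε hε
  obtain ⟨δ, hδ, h⟩ := dim_few uni t_LSP ε hε
  refine ⟨δ, hδ, fun P hP b K e hbi he hb β C hβ φ hφ => ?_⟩
  obtain ⟨G, hG⟩ := growth P b K e hb β C φ hφ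
  have h1 := h φ (few_of hF P hP b K e hbi hb β C hβ φ hφ) (e * P.natDegree) G (by nlinarith) hG
  push_cast at h1
  exact h1

/-- almost every `α` -/
theorem seq_ae (hF : S_FEW) : ∀ ε : ℝ, 0 < ε → ∃ δ : ℝ, 0 < δ ∧
    ∀ P : Polynomial ℤ, 2 ≤ P.natDegree → ∀ (b : ℕ → ℕ) (K e : ℕ), Function.Injective b →
      (∀ n, 1 ≤ n → b n ≤ K * n ^ e) → ∀ (β C : ℝ), β ≠ 0 → ∀ φ : ℕ → ℤ,
      (∀ n, |(φ n : ℝ) - β * ((P.eval (b n : ℤ) : ℤ) : ℝ)| ≤ C) → ∀ᵐ α : ℝ, BC.Good φ ε δ α := by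
  intro ε hε
  obtain ⟨δ, hδ, h⟩ := t_BC uni Pool.Agent.K1H97.GT.t_MOMP ε hε
  exact ⟨δ, hδ, fun P hP b K e hbi hb β C hβ φ hφ => h φ (few_of hF P hP b K e hbi hb β C hβ φ hφ)⟩

end Pool.Agent.H27.KF
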